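import Pool.Agent.Helper67.Recon.Main

namespace Pool.Agent.Results.MP_f30308_lc.ClosureReconstruction

open Topology Pool.Agent.Helper67.Recon

universe u v w

/-- If a closed oligomorphic permutation group on the natural numbers has reconstruction, then so
does its closure in the full transformation monoid. -/
theorem result (G : Subgroup (Equiv.Perm ℕ))
    (hclosed : IsClosed[permTopology ℕ] (G : Set (Equiv.Perm ℕ)))
    (holig : Oligomorphic G) (hrec : GroupReconstruction.{u, v, w} G) :
    MonoidReconstruction.{u, v, w} (closureMonoid G) :=
  Pool.Agent.Helper67.Recon.main G hclosed holig hrec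

end Pool.Agent.Results.MP_f30308_lc.ClosureReconstruction
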